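import Pool.Agent.X91.Ritt3

/-!
MP_e7950b_an, Q1: every symmetric probability measure `μ` on `ℤ` with `(μ(n))_{n ≥ 0}`
non-increasing is Ritt, with the absolute constant `90`.
-/

set_option autoImplicit false
set_option linter.unusedSectionVars false

open Finset Filter Topology

namespace Pool.Agent.Results.MP_e7950b_an.Ritt

open Pool.Agent.X91.Ritt

/-- Convolution of functions on `ℤ`. -/
noncomputable def conv (f g : ℤ → ℝ) (k : ℤ) : ℝ := ∑' j, f j * g (k - j)

/-- Convolution powers; the zeroth power is the unit mass at `0`. -/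
noncomputable def cpow (μ : ℤ → ℝ) : ℕ → ℤ → ℝ
  | 0 => fun k => if k = 0 then 1 else 0
  | n + 1 => conv μ (cpow μ n)

/-- `μ` is a probability measure on `ℤ` (given by its masses). -/
def IsProb (μ : ℤ → ℝ) : Prop := (∀ k, 0 ≤ μ k) ∧ HasSum μ 1

/-- `μ` is Ritt: `n ‖μ^n - μ^(n+1)‖₁` is bounded for `n ≥ 1`. -/
def IsRitt (μ : ℤ → ℝ) : Prop :=
  ∃ C : ℝ, ∀ n : ℕ, 1 ≤ n → Summable (fun k => |cpow μ n k - cpow μ (n + 1) k|) ∧
    n * ∑' k, |cpow μ n k - cpow μ (n + 1) k| ≤ C

section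

variable {μ : ℤ → ℝ}

/-- The layers of `μ`. -/
noncomputable def v (μ : ℤ → ℝ) (R : ℕ) : ℝ := (2 * R + 1) * (μ R - μ (R + 1))

/-- Truncated mass. -/
noncomputable def sK (μ : ℤ → ℝ) (K : ℕ) : ℝ := ∑ R ∈ range (K + 1), v μ R

/-- The weights of the approximating mixture. -/
noncomputable def w (μ : ℤ → ℝ) (K R : ℕ) : ℝ := v μ R + if R = 0 then 1 - sK μ K else 0

/-- The truncated function. -/
noncomputable def aK (μ : ℤ → ℝ) (K : ℕ) (k : ℤ) : ℝ :=
  ∑ R ∈ range (K + 1), (μ R - μ (R + 1)) * (W R).coeff k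

/-- The approximating mixture. -/
noncomputable def pK (μ : ℤ → ℝ) (K : ℕ) : P := ∑ R ∈ range (K + 1), w μ K R • U R

theorem hasSum_W (R : ℕ) : HasSum (fun k => (W R).coeff k) (2 * (R : ℝ) + 1) := by
  induction R with
  | zero =>
    have : (fun k => (W 0).coeff k) = fun k : ℤ => if k = 0 then (1 : ℝ) else 0 := by
      funext k
      rw [coeff_W]
      split_ifs <;> first | rfl | omega
    rw [this]
    have := hasSum_ite_eq (0 : ℤ) (1 : ℝ)
    simpa using this
  | succ R ih =>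
    have : (fun k => (W (R + 1)).coeff k) = fun k : ℤ => (W R).coeff k +
        (if k = (R : ℤ) + 1 then (1 : ℝ) else 0) + (if k = -((R : ℤ) + 1) then (1 : ℝ) else 0) := by
      funext k
      rw [coeff_W, coeff_W]
      split_ifs <;> first | omega | norm_num
    rw [this]
    have h := (ih.add (hasSum_ite_eq ((R : ℤ) + 1) (1 : ℝ))).add
      (hasSum_ite_eq (-((R : ℤ) + 1)) (1 : ℝ))
    convert h using 1
    push_cast
    ring

theorem hasSum_aK (K : ℕ) : HasSum (aK μ K) (sK μ K) := by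
  unfold aK sK v
  refine hasSum_sum fun R _ => ?_
  have := (hasSum_W R).mul_left (μ R - μ (R + 1))
  rw [mul_comm (2 * (R : ℝ) + 1)]
  exact this

theorem aK_eq (K : ℕ) (k : ℤ) : aK μ K k =
    if k.natAbs ≤ K then μ (k.natAbs : ℤ) - μ ((K : ℤ) + 1) else 0 := by
  unfold aK
  induction K with
  | zero =>
    rw [Finset.sum_range_one, coeff_W]
    split_ifs with h
    · have : k.natAbs = 0 := by omega
      rw [this]
      simp
    · simp
  | succ K ih =>
    rw [Finset.sum_range_succ, ih, coeff_W]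
    have e : ((K + 1 : ℕ) : ℤ) = (K : ℤ) + 1 := by push_cast; ring
    by_cases h1 : k.natAbs ≤ K
    · rw [if_pos h1, if_pos (by omega), if_pos (by omega), e]
      ring
    · by_cases h2 : k.natAbs = K + 1
      · rw [if_neg h1, if_pos (by omega), if_pos (by omega), h2, e]
        ring
      · rw [if_neg h1, if_neg (by omega), if_neg (by omega)]
        ring

theorem coeff_pK (K : ℕ) (k : ℤ) :
    (pK μ K).coeff k = aK μ K k + if k = 0 then 1 - sK μ K else 0 := by
  unfold pK aK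
  rw [AddMonoidAlgebra.coeff_sum, Finsupp.finsetSum_apply]
  have h : ∀ R ∈ range (K + 1), (w μ K R • U R).coeff k =
      (μ R - μ (R + 1)) * (W R).coeff k + if R = 0 then (if k = 0 then 1 - sK μ K else 0) else 0 := by
    intro R _
    have hp : (2 * (R : ℝ) + 1) ≠ 0 := by positivity
    unfold U w v
    rw [AddMonoidAlgebra.coeff_smul_apply, AddMonoidAlgebra.coeff_smul_apply, smul_eq_mul,
      smul_eq_mul, add_mul]
    congr 1
    · field_simp
    · by_cases hR : R = 0
      · subst hR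
        rw [coeff_W]
        by_cases hk : k = 0
        · subst hk
          simp
        · have h0 : ¬ k.natAbs ≤ 0 := by omega
          simp [hk]
      · rw [if_neg hR, if_neg hR, zero_mul]
  rw [Finset.sum_congr rfl h, Finset.sum_add_distrib]
  congr 1
  rw [Finset.sum_ite_eq' (range (K + 1)) 0 (fun _ => if k = 0 then 1 - sK μ K else 0),
    if_pos (Finset.mem_range.mpr (by omega))]

variable (hμ : IsProb μ) (hsym : ∀ k, μ (-k) = μ k)
  (hanti : ∀ m n : ℕ, m ≤ n → μ (n : ℤ) ≤ μ (m : ℤ))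

include hμ hsym hanti

theorem natAbs_eq (k : ℤ) : μ (k.natAbs : ℤ) = μ k := by
  rcases Int.natAbs_eq k with h | h
  · rw [← h]
  · conv_rhs => rw [h, hsym]

theorem v_nonneg (R : ℕ) : 0 ≤ v μ R := by
  unfold v
  have := hanti R (R + 1) (by omega)
  push_cast at this
  exact mul_nonneg (by positivity) (by linarith)

theorem aK_nonneg (K : ℕ) (k : ℤ) : 0 ≤ aK μ K k := by
  rw [aK_eq]
  split_ifs with h
  · have := hanti k.natAbs (K + 1) (by omega)
    push_cast at this ⊢
    linarith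
  · exact le_rfl

theorem aK_le (K : ℕ) (k : ℤ) : aK μ K k ≤ μ k := by
  rw [aK_eq]
  split_ifs with h
  · rw [natAbs_eq hμ hsym hanti]
    have := hμ.1 ((K : ℤ) + 1)
    linarith
  · exact hμ.1 k

theorem sK_le (K : ℕ) : sK μ K ≤ 1 :=
  hasSum_le (aK_le hμ hsym hanti K) (hasSum_aK K) hμ.2

theorem w_nonneg (K R : ℕ) : 0 ≤ w μ K R := by
  unfold w
  have h1 := v_nonneg hμ hsym hanti R
  have h2 := sK_le hμ hsym hanti K
  split_ifs
  · linarith
  · linarith

theorem w_sum (K : ℕ) : ∑ R ∈ range (K + 1), w μ K R = 1 := by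
  unfold w
  rw [Finset.sum_add_distrib, Finset.sum_ite_eq' (range (K + 1)) 0 (fun _ => 1 - sK μ K),
    if_pos (Finset.mem_range.mpr (by omega))]
  unfold sK
  ring

theorem tendsto_aK (k : ℤ) : Tendsto (fun K => aK μ K k) atTop (𝓝 (μ k)) := by
  have h1 : Tendsto (fun K : ℕ => μ ((K : ℤ) + 1)) atTop (𝓝 0) := by
    have h2 : Summable fun K : ℕ => μ ((K : ℤ) + 1) :=
      hμ.2.summable.comp_injective (i := fun K : ℕ => (K : ℤ) + 1) fun a b h => by
        simpa using h
    exact h2.tendsto_atTop_zero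
  have h2 : Tendsto (fun K : ℕ => μ k - μ ((K : ℤ) + 1)) atTop (𝓝 (μ k)) := by
    have := (tendsto_const_nhds (x := μ k)).sub h1
    rwa [sub_zero] at this
  refine h2.congr' ?_
  filter_upwards [eventually_ge_atTop k.natAbs] with K hK
  rw [aK_eq, if_pos hK, natAbs_eq hμ hsym hanti]

theorem tendsto_sK : Tendsto (sK μ) atTop (𝓝 1) := by
  have h1 := tendsto_tsum_of_dominated_convergence (f := fun K k => aK μ K k) (g := μ)
    (bound := μ) (𝓕 := atTop) hμ.2.summable (fun k => tendsto_aK hμ hsym hanti k)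
    (Eventually.of_forall fun K k => by
      rw [Real.norm_eq_abs, abs_of_nonneg (aK_nonneg hμ hsym hanti K k)]
      exact aK_le hμ hsym hanti K k)
  rw [hμ.2.tsum_eq] at h1
  refine h1.congr fun K => ?_
  exact (hasSum_aK K).tsum_eq

theorem tendsto_pK (k : ℤ) : Tendsto (fun K => (pK μ K).coeff k) atTop (𝓝 (μ k)) := by
  simp_rw [coeff_pK]
  have h1 := tendsto_aK hμ hsym hanti k
  have h2 : Tendsto (fun K => if k = 0 then 1 - sK μ K else 0) atTop (𝓝 0) := by
    by_cases hk : k = 0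
    · simp only [hk, if_true]
      have := (tendsto_const_nhds (x := (1 : ℝ))).sub (tendsto_sK hμ hsym hanti)
      rwa [sub_self] at this
    · simp only [hk, if_false]
      exact tendsto_const_nhds
  have := h1.add h2
  rwa [add_zero] at this

theorem abs_pK (K : ℕ) (k : ℤ) : |(pK μ K).coeff k| ≤ μ k + if k = 0 then 1 else 0 := by
  rw [coeff_pK]
  have h1 := aK_nonneg hμ hsym hanti K k
  have h2 := aK_le hμ hsym hanti K k
  have h3 := sK_le hμ hsym hanti K
  have h4 : 0 ≤ sK μ K := Finset.sum_nonneg fun R _ => v_nonneg hμ hsym hanti R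
  split_ifs
  · rw [abs_of_nonneg (by linarith)]
    linarith
  · rw [abs_of_nonneg (by linarith)]
    linarith

theorem N_pK (K : ℕ) : N (pK μ K) ≤ 1 := by
  unfold pK
  refine (N_sum _ _).trans ?_
  rw [← w_sum hμ hsym hanti K]
  refine Finset.sum_le_sum fun R _ => ?_
  rw [N_smul, abs_of_nonneg (w_nonneg hμ hsym hanti K R)]
  have := N_U R
  have := w_nonneg hμ hsym hanti K R
  nlinarith

theorem tendsto_pow (n : ℕ) (k : ℤ) :
    Tendsto (fun K => (pK μ K ^ n).coeff k) atTop (𝓝 (cpow μ n k)) := by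
  induction n generalizing k with
  | zero =>
    simp_rw [pow_zero, coeff_one]
    exact tendsto_const_nhds
  | succ n ih =>
    simp_rw [pow_succ', coeff_mul']
    have hs : Summable fun j => μ j + if j = 0 then (1 : ℝ) else 0 :=
      hμ.2.summable.add (hasSum_ite_eq (0 : ℤ) (1 : ℝ)).summable
    refine tendsto_tsum_of_dominated_convergence hs (fun j => ?_) (Eventually.of_forall fun K j => ?_)
    · exact (tendsto_pK hμ hsym hanti j).mul (ih (k - j))
    · rw [Real.norm_eq_abs, abs_mul]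
      have h1 := abs_pK hμ hsym hanti K j
      have h2 : |(pK μ K ^ n).coeff (k - j)| ≤ 1 :=
        (abs_coeff_le _ _).trans (N_pow_le _ (N_pK hμ hsym hanti K) n)
      have h3 := abs_nonneg ((pK μ K).coeff j)
      have h4 := abs_nonneg ((pK μ K ^ n).coeff (k - j))
      nlinarith

theorem finite_bound (n : ℕ) (F : Finset ℤ) :
    ((n : ℝ) + 1) * ∑ k ∈ F, |cpow μ n k - cpow μ (n + 1) k| ≤ 90 := by
  have h1 : Tendsto (fun K => ((n : ℝ) + 1) *
      ∑ k ∈ F, |(pK μ K ^ n).coeff k - (pK μ K ^ (n + 1)).coeff k|) atTop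
      (𝓝 (((n : ℝ) + 1) * ∑ k ∈ F, |cpow μ n k - cpow μ (n + 1) k|)) := by
    refine Tendsto.const_mul _ (tendsto_finsetSum _ fun k _ => ?_)
    exact ((tendsto_pow hμ hsym hanti n k).sub (tendsto_pow hμ hsym hanti (n + 1) k)).abs
  refine le_of_tendsto h1 (Eventually.of_forall fun K => ?_)
  have h2 := mixture K (w μ K) (w_nonneg hμ hsym hanti K) (w_sum hμ hsym hanti K) (pK μ K) rfl n
  refine le_trans (mul_le_mul_of_nonneg_left ?_ (by positivity)) h2
  have h3 : ∀ k, |(pK μ K ^ n).coeff k - (pK μ K ^ (n + 1)).coeff k| =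
      |(pK μ K ^ n - pK μ K ^ (n + 1)).coeff k| := by
    intro k
    rfl
  simp_rw [h3]
  exact (summable_abs _).sum_le_tsum F fun _ _ => abs_nonneg _

end

/-- Every symmetric probability measure on `ℤ` with non-increasing masses is Ritt, with a universal
constant. -/
theorem result (μ : ℤ → ℝ) (hμ : IsProb μ) (hsym : ∀ k, μ (-k) = μ k)
    (hanti : ∀ m n : ℕ, m ≤ n → μ (n : ℤ) ≤ μ (m : ℤ)) :
    IsRitt μ ∧ ∀ n : ℕ, n * ∑' k, |cpow μ n k - cpow μ (n + 1) k| ≤ 90 := by
  have hs : ∀ n, Summable (fun k => |cpow μ n k - cpow μ (n + 1) k|) ∧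
      (n : ℝ) * ∑' k, |cpow μ n k - cpow μ (n + 1) k| ≤ 90 := by
    intro n
    have hb : ∀ F : Finset ℤ, ∑ k ∈ F, |cpow μ n k - cpow μ (n + 1) k| ≤ 90 / ((n : ℝ) + 1) := by
      intro F
      have := finite_bound hμ hsym hanti n F
      rw [le_div_iff₀ (by positivity)]
      linarith
    have h1 : Summable (fun k => |cpow μ n k - cpow μ (n + 1) k|) :=
      summable_of_sum_le (fun _ => abs_nonneg _) hb
    have h2 : ∑' k, |cpow μ n k - cpow μ (n + 1) k| ≤ 90 / ((n : ℝ) + 1) := h1.tsum_le_of_sum_le hb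
    refine ⟨h1, ?_⟩
    have h3 : 0 ≤ ∑' k, |cpow μ n k - cpow μ (n + 1) k| := tsum_nonneg fun _ => abs_nonneg _
    rw [le_div_iff₀ (by positivity)] at h2
    linarith
  exact ⟨⟨90, fun n _ => hs n⟩, fun n => (hs n).2⟩

end Pool.Agent.Results.MP_e7950b_an.Ritt
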